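import Mathlib

/-!
# A G-space failing the G-equivariant dual lifting property
-/

open scoped NNReal Topology BoundedContinuousFunction

namespace Pool.Agent.Results.MP_6bd626_an.NoEquivariantProjection

/-- `Lip_0(X)`: the real Lipschitz functions on `X` vanishing at `0`. -/
def Lip0 (X : Type) [NormedAddCommGroup X] [NormedSpace ℝ X] : Submodule ℝ (X → ℝ) where
  carrier := {f | f 0 = 0 ∧ ∃ K : ℝ≥0, LipschitzWith K f}
  zero_mem' := ⟨rfl, 0, LipschitzWith.const 0⟩
  add_mem' := by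
    rintro f g ⟨hf, K, hK⟩ ⟨hg, L, hL⟩
    exact ⟨by simp [hf, hg], K + L, hK.add hL⟩
  smul_mem' := by
    rintro c f ⟨hf, K, hK⟩
    refine ⟨by simp [hf], ‖c‖₊ * K, ?_⟩
    refine LipschitzWith.of_dist_le_mul fun x y => ?_
    have h := hK.dist_le_mul x y
    rw [Real.dist_eq] at h
    rw [Real.dist_eq]
    simp only [Pi.smul_apply, smul_eq_mul, ← mul_sub, abs_mul, NNReal.coe_mul, coe_nnnorm,
      Real.norm_eq_abs]
    nlinarith [abs_nonneg c]

variable {X : Type} [NormedAddCommGroup X] [NormedSpace ℝ X]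

/-- A bounded linear functional viewed as an element of `Lip_0(X)`. -/
def ofDual (φ : X →L[ℝ] ℝ) : Lip0 X :=
  ⟨fun x => φ x, by simp, ‖φ‖₊, φ.lipschitz⟩

/-- The function `f ∘ T` for `f ∈ Lip_0(X)` and a bounded linear automorphism `T`. -/
def comp (f : Lip0 X) (T : X ≃L[ℝ] X) : Lip0 X :=
  ⟨fun x => (f : X → ℝ) (T x), by
    obtain ⟨K, hK⟩ := f.2.2
    refine ⟨by simp [f.2.1], K * ‖(T : X →L[ℝ] X)‖₊, ?_⟩
    exact hK.comp (T : X →L[ℝ] X).lipschitz⟩

/-- The `G`-space `X` (the action being `ρ`) has the `G`-equivariant dual lifting property: there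
is a bounded linear projection `P` of `Lip_0(X)` onto `X*` such that
`P (f ∘ g⁻¹) = (P f) ∘ g⁻¹`. -/
def EquivariantDualLifting {G : Type} [Group G] (ρ : G →* (X ≃L[ℝ] X)) : Prop :=
  ∃ P : Lip0 X →ₗ[ℝ] (X →L[ℝ] ℝ),
    (∃ C : ℝ≥0, ∀ (f : Lip0 X) (K : ℝ≥0), LipschitzWith K (f : X → ℝ) → ‖P f‖ ≤ C * K) ∧
    (∀ φ : X →L[ℝ] ℝ, P (ofDual φ) = φ) ∧
    (∀ (g : G) (f : Lip0 X),
      P (comp f (ρ g⁻¹)) = (P f).comp ((ρ g⁻¹ : X ≃L[ℝ] X) : X →L[ℝ] X))

/-! ### The example: bounded functions on `ℕ` modulo constants, under all permutations -/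

/-- Differences of bounded functions on `ℕ`, as bounded functions on `ℕ × ℕ`. -/
def Y : Submodule ℝ (ℕ × ℕ →ᵇ ℝ) where
  carrier := {y | ∀ i j k, y (i, j) + y (j, k) = y (i, k)}
  zero_mem' := by intro i j k; simp
  add_mem' := by
    intro y z hy hz i j k
    simp only [BoundedContinuousFunction.coe_add, Pi.add_apply]
    rw [← hy i j k, ← hz i j k]; ring
  smul_mem' := by
    intro c y hy i j k
    simp only [BoundedContinuousFunction.coe_smul, smul_eq_mul]
    rw [← hy i j k]; ring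

theorem isClosed_Y : IsClosed (Y : Set (ℕ × ℕ →ᵇ ℝ)) := by
  have h : (Y : Set (ℕ × ℕ →ᵇ ℝ)) =
      ⋂ i, ⋂ j, ⋂ k, {y : ℕ × ℕ →ᵇ ℝ | y (i, j) + y (j, k) = y (i, k)} := by
    ext y
    simp only [Set.mem_iInter, Set.mem_ofPred_eq]
    exact Iff.rfl
  rw [h]
  refine isClosed_iInter fun i => isClosed_iInter fun j => isClosed_iInter fun k => ?_
  have hc : ∀ p : ℕ × ℕ, Continuous (fun y : ℕ × ℕ →ᵇ ℝ => y p) := fun p =>
    (BoundedContinuousFunction.evalCLM ℝ p).continuous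
  exact isClosed_eq ((hc _).add (hc _)) (hc _)

instance : CompleteSpace Y := isClosed_Y.completeSpace_coe

/-- The action of a permutation. -/
def actFun (g : Equiv.Perm ℕ) (y : Y) : Y :=
  ⟨y.1.compContinuous ⟨fun p => (g⁻¹ p.1, g⁻¹ p.2), continuous_of_discreteTopology⟩, by
    intro i j k
    exact y.2 (g⁻¹ i) (g⁻¹ j) (g⁻¹ k)⟩

theorem actFun_apply (g : Equiv.Perm ℕ) (y : Y) (i j : ℕ) :
    (actFun g y).1 (i, j) = y.1 (g⁻¹ i, g⁻¹ j) := rfl

theorem Y_ext {y z : Y} (h : ∀ i j, y.1 (i, j) = z.1 (i, j)) : y = z := by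
  apply Subtype.ext
  ext p
  exact h p.1 p.2

theorem actFun_mul (g h : Equiv.Perm ℕ) (y : Y) : actFun (g * h) y = actFun g (actFun h y) := by
  apply Y_ext
  intro i j
  simp [actFun_apply, mul_inv_rev, Equiv.Perm.mul_apply]

theorem actFun_one (y : Y) : actFun 1 y = y := by
  apply Y_ext
  intro i j
  simp [actFun_apply]

/-- The action of a permutation as a bounded operator. -/
noncomputable def actL (g : Equiv.Perm ℕ) : Y →L[ℝ] Y :=
  LinearMap.mkContinuous
    { toFun := actFun g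
      map_add' := fun y z => by apply Y_ext; intro i j; simp [actFun_apply]
      map_smul' := fun c y => by apply Y_ext; intro i j; simp [actFun_apply] } 1
    (by
      intro y
      rw [one_mul]
      show ‖(actFun g y).1‖ ≤ ‖y.1‖
      rw [BoundedContinuousFunction.norm_le (norm_nonneg _)]
      intro p
      exact y.1.norm_coe_le_norm _)

/-- The action of a permutation as a bounded automorphism. -/
noncomputable def actE (g : Equiv.Perm ℕ) : Y ≃L[ℝ] Y :=
  ContinuousLinearEquiv.equivOfInverse (actL g) (actL g⁻¹)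
    (fun y => by
      show actFun g⁻¹ (actFun g y) = y
      rw [← actFun_mul, inv_mul_cancel, actFun_one])
    (fun y => by
      show actFun g (actFun g⁻¹ y) = y
      rw [← actFun_mul, mul_inv_cancel, actFun_one])

/-- The action. -/
noncomputable def ρ : Equiv.Perm ℕ →* (Y ≃L[ℝ] Y) where
  toFun := actE
  map_one' := by
    ext1; ext1 y
    exact actFun_one y
  map_mul' g h := by
    ext1; ext1 y
    exact actFun_mul g h y

theorem ρ_inv_apply (g : Equiv.Perm ℕ) (y : Y) (i j : ℕ) :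
    (ρ g⁻¹ y).1 (i, j) = y.1 (g i, g j) := by
  show (actFun g⁻¹ y).1 (i, j) = y.1 (g i, g j)
  rw [actFun_apply, inv_inv]

theorem bddBelow_row (y : ℕ × ℕ →ᵇ ℝ) (i : ℕ) : BddBelow (Set.range fun h => y (i, h)) := by
  refine ⟨-‖y‖, ?_⟩
  rintro _ ⟨h, rfl⟩
  have := y.norm_coe_le_norm (i, h)
  rw [Real.norm_eq_abs] at this
  exact neg_le_of_abs_le this

/-- The function `y ↦ inf_h y(0,h)`. -/
noncomputable def f : Lip0 Y :=
  ⟨fun y => ⨅ h, y.1 (0, h), by
    refine ⟨by simp, 1, ?_⟩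
    refine LipschitzWith.of_le_add_mul 1 fun y z => ?_
    have h1 : ∀ h, y.1 (0, h) ≤ z.1 (0, h) + dist y z := by
      intro h
      have h2 : dist (y.1 (0, h)) (z.1 (0, h)) ≤ dist y.1 z.1 :=
        BoundedContinuousFunction.dist_coe_le_dist _
      rw [Real.dist_eq] at h2
      have h3 := le_abs_self (y.1 (0, h) - z.1 (0, h))
      have h4 : dist y z = dist y.1 z.1 := rfl
      linarith
    have h5 : (⨅ h, y.1 (0, h)) - dist y z ≤ ⨅ h, z.1 (0, h) := by
      refine le_ciInf fun h => ?_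
      have := ciInf_le (bddBelow_row y.1 0) h
      linarith [h1 h]
    simp only [NNReal.coe_one, one_mul]
    linarith⟩

/-- Evaluation at `(i,0)`. -/
noncomputable def ev (i : ℕ) : Y →L[ℝ] ℝ :=
  (BoundedContinuousFunction.evalCLM ℝ (i, 0)).comp Y.subtypeL

theorem ev_apply (i : ℕ) (y : Y) : ev i y = y.1 (i, 0) := rfl

theorem comp_f (g : Equiv.Perm ℕ) : comp f (ρ g⁻¹) = f + ofDual (ev (g 0)) := by
  apply Subtype.ext
  funext y
  show (⨅ h, (ρ g⁻¹ y).1 (0, h)) = (⨅ h, y.1 (0, h)) + ev (g 0) y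
  have h1 : ∀ h, (ρ g⁻¹ y).1 (0, h) = y.1 (g 0, 0) + y.1 (0, g h) := by
    intro h
    rw [ρ_inv_apply, y.2 (g 0) 0 (g h)]
  simp only [h1, ev_apply]
  have h2 : (⨅ h, y.1 (0, g h)) = ⨅ h, y.1 (0, h) :=
    g.surjective.iInf_comp (fun h => y.1 (0, h))
  rw [← h2, add_comm (⨅ h, y.1 (0, g h))]
  refine (add_ciInf ?_ _).symm
  obtain ⟨b, hb⟩ := bddBelow_row y.1 0
  exact ⟨b, by rintro _ ⟨h, rfl⟩; exact hb ⟨g h, rfl⟩⟩

/-- The difference of the indicator function of `A`. -/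
noncomputable def D (A : Set ℕ) : Y :=
  ⟨BoundedContinuousFunction.mkOfBound
    ⟨fun p => A.indicator (fun _ => (1:ℝ)) p.1 - A.indicator (fun _ => (1:ℝ)) p.2,
      continuous_of_discreteTopology⟩ 2 (by
        intro p q
        have h : ∀ n, A.indicator (fun _ => (1:ℝ)) n ∈ Set.Icc (0:ℝ) 1 := by
          intro n
          by_cases hn : n ∈ A <;> simp [hn]
        have h1 := h p.1
        have h2 := h p.2
        have h3 := h q.1
        have h4 := h q.2
        simp only [ContinuousMap.coe_mk, Real.dist_eq]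
        rw [abs_le]
        constructor <;> linarith [h1.1, h1.2, h2.1, h2.2, h3.1, h3.2, h4.1, h4.2]), by
    intro i j k
    show (A.indicator (fun _ => (1:ℝ)) i - A.indicator (fun _ => (1:ℝ)) j) +
      (A.indicator (fun _ => (1:ℝ)) j - A.indicator (fun _ => (1:ℝ)) k) =
      A.indicator (fun _ => (1:ℝ)) i - A.indicator (fun _ => (1:ℝ)) k
    ring⟩

theorem D_apply (A : Set ℕ) (i j : ℕ) : (D A).1 (i, j) =
    A.indicator (fun _ => (1:ℝ)) i - A.indicator (fun _ => (1:ℝ)) j := rfl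

/-- The finitely additive set function. -/
noncomputable def m (η : Y →L[ℝ] ℝ) (A : Set ℕ) : ℝ := A.indicator (fun _ => (1:ℝ)) 0 - η (D A)

theorem m_union (η : Y →L[ℝ] ℝ) {A B : Set ℕ} (h : Disjoint A B) :
    m η (A ∪ B) = m η A + m η B := by
  have h1 : ∀ n, (A ∪ B).indicator (fun _ => (1:ℝ)) n =
      A.indicator (fun _ => (1:ℝ)) n + B.indicator (fun _ => (1:ℝ)) n := by
    intro n
    rw [Set.indicator_union_of_disjoint h]
  have h2 : D (A ∪ B) = D A + D B := by
    apply Y_ext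
    intro i j
    have : (D A + D B).1 (i, j) = (D A).1 (i, j) + (D B).1 (i, j) := rfl
    rw [this, D_apply, D_apply, D_apply, h1, h1]
    ring
  unfold m
  rw [h2, map_add, h1]
  ring

theorem m_univ (η : Y →L[ℝ] ℝ) : m η Set.univ = 1 := by
  have h2 : D Set.univ = 0 := by
    apply Y_ext
    intro i j
    rw [D_apply]
    simp
  unfold m
  rw [h2, map_zero]
  simp

theorem m_inv (η : Y →L[ℝ] ℝ)
    (hη : ∀ (g : Equiv.Perm ℕ) (y : Y), η (ρ g⁻¹ y) = η y + ev (g 0) y)
    (g : Equiv.Perm ℕ) (A : Set ℕ) : m η (g ⁻¹' A) = m η A := by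
  have h1 : ∀ n, (g ⁻¹' A).indicator (fun _ => (1:ℝ)) n = A.indicator (fun _ => (1:ℝ)) (g n) := by
    intro n
    by_cases hn : g n ∈ A
    · rw [Set.indicator_of_mem hn, Set.indicator_of_mem (show n ∈ g ⁻¹' A from hn)]
    · rw [Set.indicator_of_notMem hn, Set.indicator_of_notMem (show n ∉ g ⁻¹' A from hn)]
  have h2 : D (g ⁻¹' A) = ρ g⁻¹ (D A) := by
    apply Y_ext
    intro i j
    rw [ρ_inv_apply, D_apply, D_apply, h1, h1]
  unfold m
  rw [h2, hη, h1, ev_apply, D_apply]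
  ring

theorem exists_perm {A B : Set ℕ} (hA : A.Infinite) (hA' : Aᶜ.Infinite) (hB : B.Infinite)
    (hB' : Bᶜ.Infinite) : ∃ g : Equiv.Perm ℕ, g ⁻¹' B = A := by
  classical
  have : Infinite {n // n ∈ A} := hA.to_subtype
  have : Infinite {n // n ∈ B} := hB.to_subtype
  have : Infinite {n // ¬ n ∈ A} := hA'.to_subtype
  have : Infinite {n // ¬ n ∈ B} := hB'.to_subtype
  obtain ⟨e⟩ := nonempty_equiv_of_countable (α := {n // n ∈ A}) (β := {n // n ∈ B})
  obtain ⟨e'⟩ := nonempty_equiv_of_countable (α := {n // ¬ n ∈ A}) (β := {n // ¬ n ∈ B})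
  refine ⟨Equiv.subtypeCongr e e', ?_⟩
  ext n
  by_cases hn : n ∈ A
  · have h1 : Equiv.subtypeCongr e e' n = e ⟨n, hn⟩ := by
      simp [Equiv.subtypeCongr, hn]
    simp only [Set.mem_preimage, h1, hn, iff_true]
    exact (e ⟨n, hn⟩).2
  · have h1 : Equiv.subtypeCongr e e' n = e' ⟨n, hn⟩ := by
      simp [Equiv.subtypeCongr, hn]
    simp only [Set.mem_preimage, h1, hn, iff_false]
    exact (e' ⟨n, hn⟩).2

/-- There is a group `G` and a `G`-space `X` that fails the `G`-equivariant dual lifting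
property. -/
theorem result : ∃ (G : Type) (_ : Group G) (X : Type) (_ : NormedAddCommGroup X)
    (_ : NormedSpace ℝ X) (_ : CompleteSpace X) (ρ : G →* (X ≃L[ℝ] X)),
    ¬ EquivariantDualLifting ρ := by
  refine ⟨Equiv.Perm ℕ, inferInstance, Y, inferInstance, inferInstance, inferInstance, ρ, ?_⟩
  rintro ⟨P, _, hP, hequi⟩
  have hη : ∀ (g : Equiv.Perm ℕ) (y : Y), P f (ρ g⁻¹ y) = P f y + ev (g 0) y := by
    intro g y
    have h1 := hequi g f
    rw [comp_f, map_add, hP] at h1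
    have h2 := DFunLike.congr_fun h1 y
    exact h2.symm
  -- residue classes modulo three
  let R : ℕ → Set ℕ := fun r => {n | n % 3 = r}
  have hR : ∀ r, r < 3 → (R r).Infinite := by
    intro r hr
    refine Set.infinite_of_not_bddAbove ?_
    rintro ⟨b, hb⟩
    have h1 : 3 * b + 3 + r ∈ R r := by
      show (3 * b + 3 + r) % 3 = r
      omega
    have := hb h1
    omega
  have hR0c : (R 0)ᶜ.Infinite := (hR 1 (by norm_num)).mono (by
    intro n hn; simp only [R, Set.mem_compl_iff, Set.mem_ofPred_eq] at hn ⊢; omega)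
  have hR1c : (R 1)ᶜ.Infinite := (hR 0 (by norm_num)).mono (by
    intro n hn; simp only [R, Set.mem_compl_iff, Set.mem_ofPred_eq] at hn ⊢; omega)
  have hR2c : (R 2)ᶜ.Infinite := (hR 0 (by norm_num)).mono (by
    intro n hn; simp only [R, Set.mem_compl_iff, Set.mem_ofPred_eq] at hn ⊢; omega)
  have hR01 : (R 0 ∪ R 1).Infinite := (hR 0 (by norm_num)).mono Set.subset_union_left
  have hR01c : (R 0 ∪ R 1)ᶜ.Infinite := (hR 2 (by norm_num)).mono (by
    intro n hn; simp only [R, Set.mem_compl_iff, Set.mem_union, Set.mem_ofPred_eq] at hn ⊢; omega)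
  have heq : ∀ {A B : Set ℕ}, A.Infinite → Aᶜ.Infinite → B.Infinite → Bᶜ.Infinite →
      m (P f) A = m (P f) B := by
    intro A B h1 h2 h3 h4
    obtain ⟨g, hg⟩ := exists_perm h1 h2 h3 h4
    rw [← hg]
    exact m_inv (P f) hη g B
  have hd01 : Disjoint (R 0) (R 1) := by
    rw [Set.disjoint_left]
    intro n hn; simp only [R, Set.mem_ofPred_eq] at hn ⊢; omega
  have hd2 : Disjoint (R 0 ∪ R 1) (R 2) := by
    rw [Set.disjoint_left]
    intro n hn; simp only [R, Set.mem_union, Set.mem_ofPred_eq] at hn ⊢; omega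
  have hu : (R 0 ∪ R 1) ∪ R 2 = Set.univ := by
    ext n; simp only [R, Set.mem_union, Set.mem_ofPred_eq, Set.mem_univ, iff_true]; omega
  have e1 := m_union (P f) hd01
  have e2 := m_union (P f) hd2
  rw [hu, m_univ] at e2
  have e3 := heq hR01 hR01c (hR 0 (by norm_num)) hR0c
  have e4 := heq (hR 1 (by norm_num)) hR1c (hR 0 (by norm_num)) hR0c
  have e5 := heq (hR 2 (by norm_num)) hR2c (hR 0 (by norm_num)) hR0c
  linarith

end Pool.Agent.Results.MP_6bd626_an.NoEquivariantProjection
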